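import Pool.Agent.Helper17.TH.GoalsII

/-!
# Project TH, packet S_TEN1: the kernel of `O ⊗ A → ℂ_p ⊗ A`
-/

set_option autoImplicit false

namespace Pool.Agent.Helper57.TH

open Module TensorProduct
open Pool.Agent.Helper17.TH

theorem exists_coords (A : Type) [AddCommGroup A] [Module.Finite ℤ A] :
    ∃ (r : ℕ) (e : Fin r → A) (ψ : Fin r → A →ₗ[ℤ] ℤ),
      ∀ a, ∃ n : ℕ, 0 < n ∧ n • (a - ∑ i, ψ i a • e i) = 0 := by
  classical
  set T := Submodule.torsion ℤ A with hT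
  set b := Module.finBasis ℤ (A ⧸ T) with hb
  have hs : ∀ i, ∃ a : A, T.mkQ a = b i := fun i => T.mkQ_surjective (b i)
  choose e he using hs
  refine ⟨Module.finrank ℤ (A ⧸ T), e, fun i => (b.coord i).comp T.mkQ, fun a => ?_⟩
  have h1 : T.mkQ (a - ∑ i, ((b.coord i).comp T.mkQ) a • e i) = 0 := by
    rw [map_sub, map_sum]
    simp only [map_smul, he, LinearMap.comp_apply, Module.Basis.coord_apply]
    rw [b.sum_repr, sub_self]
  have h2 : a - ∑ i, ((b.coord i).comp T.mkQ) a • e i ∈ T := by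
    rwa [Submodule.mkQ_apply, Submodule.Quotient.mk_eq_zero] at h1
  obtain ⟨⟨n, hn⟩, h3⟩ := (Submodule.mem_torsion_iff _).1 h2
  have hn0 : n ≠ 0 := nonZeroDivisors.ne_zero hn
  refine ⟨n.natAbs, Int.natAbs_pos.2 hn0, ?_⟩
  have h4 : n • (a - ∑ i, ((b.coord i).comp T.mkQ) a • e i) = 0 := h3
  rcases Int.natAbs_eq n with h5 | h5
  · rw [h5, natCast_zsmul] at h4
    exact h4
  · rw [h5, neg_smul, natCast_zsmul, neg_eq_zero] at h4
    exact h4

/-- the coordinate map `R ⊗ A → R` -/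
noncomputable def co (R : Type) [CommRing R] {A : Type} [AddCommGroup A] (ψ : A →ₗ[ℤ] ℤ) :
    (R ⊗[ℤ] A) →ₗ[ℤ] R :=
  (TensorProduct.rid ℤ R).toLinearMap.comp (LinearMap.lTensor R ψ)

theorem co_tmul (R : Type) [CommRing R] {A : Type} [AddCommGroup A] (ψ : A →ₗ[ℤ] ℤ) (r : R) (a : A) :
    co R ψ (r ⊗ₜ a) = ψ a • r := by
  show (TensorProduct.rid ℤ R) ((LinearMap.lTensor R ψ) (r ⊗ₜ a)) = _
  rw [LinearMap.lTensor_tmul, TensorProduct.rid_tmul]

theorem co_tm {O k : Type} [CommRing O] [CommRing k] (j : O →+* k) {A : Type} [AddCommGroup A]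
    (ψ : A →ₗ[ℤ] ℤ) (z : O ⊗[ℤ] A) : co k ψ (tm j A z) = j (co O ψ z) := by
  induction z using TensorProduct.induction_on with
  | zero => simp
  | tmul o a =>
    have h : tm j A (o ⊗ₜ a) = j o ⊗ₜ a := rfl
    rw [h, co_tmul, co_tmul, map_zsmul]
  | add x y hx hy => rw [map_add, map_add, map_add, hx, hy, map_add]

theorem tors_mem (p : ℕ) [Fact p.Prime] (O : Type) [CommRing O] [Algebra ℤ_[p] O]
    (A : Type) [AddCommGroup A] (o : O) (t : A) (n : ℕ) (hn : 0 < n) (ht : n • t = 0) :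
    (o ⊗ₜ[ℤ] t : O ⊗[ℤ] A) ∈
      AddSubgroup.closure {y : O ⊗[ℤ] A | ∃ (o : O) (x : A) (n : ℕ), p ^ n • x = 0 ∧ y = o ⊗ₜ x} := by
  obtain ⟨s, m, hm, hnm⟩ := Nat.exists_eq_pow_mul_and_not_dvd hn.ne' p (Fact.out (p := p.Prime)).ne_one
  have hu : IsUnit (m : ℤ_[p]) := by
    rw [PadicInt.isUnit_iff]
    have h1 := PadicInt.norm_le_one (m : ℤ_[p])
    have h2 : ¬ ‖(m : ℤ_[p])‖ < 1 := by
      have h3 := PadicInt.norm_int_lt_one_iff_dvd (p := p) (m : ℤ)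
      rw [Int.cast_natCast] at h3
      rw [h3, Int.natCast_dvd_natCast]
      exact hm
    exact le_antisymm h1 (not_lt.1 h2)
  obtain ⟨u, hu⟩ := hu
  have h1 : o = m • (((u⁻¹ : ℤ_[p]ˣ) : ℤ_[p]) • o) := by
    have h2 : (m : ℤ_[p]) • (((u⁻¹ : ℤ_[p]ˣ) : ℤ_[p]) • o) = o := by
      rw [smul_smul, ← hu, Units.mul_inv, one_smul]
    exact h2.symm.trans (Nat.cast_smul_eq_nsmul ℤ_[p] m _)
  apply AddSubgroup.subset_closure
  refine ⟨((u⁻¹ : ℤ_[p]ˣ) : ℤ_[p]) • o, m • t, s, ?_, ?_⟩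
  · rw [smul_smul, ← hnm]
    exact ht
  · conv_lhs => rw [h1]
    rw [TensorProduct.smul_tmul]

theorem s_ten1 : Pool.Agent.Helper17.TH.S_TEN1 := by
  intro p _ O _ _ j hj A _ _ z hz
  obtain ⟨r, e, ψ, he⟩ := exists_coords A
  have key : ∀ z : O ⊗[ℤ] A, z - ∑ i, (co O (ψ i) z) ⊗ₜ[ℤ] e i ∈
      AddSubgroup.closure {y : O ⊗[ℤ] A | ∃ (o : O) (x : A) (n : ℕ), p ^ n • x = 0 ∧ y = o ⊗ₜ x} := by
    intro z
    induction z using TensorProduct.induction_on with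
    | zero => simp
    | tmul o a =>
      have h1 : (o ⊗ₜ[ℤ] a : O ⊗[ℤ] A) - ∑ i, (co O (ψ i) (o ⊗ₜ a)) ⊗ₜ[ℤ] e i =
          o ⊗ₜ[ℤ] (a - ∑ i, ψ i a • e i) := by
        rw [TensorProduct.tmul_sub, TensorProduct.tmul_sum]
        congr 1
        refine Finset.sum_congr rfl fun i _ => ?_
        rw [co_tmul, TensorProduct.smul_tmul]
      rw [h1]
      obtain ⟨n, hn, h2⟩ := he a
      exact tors_mem p O A o _ n hn h2
    | add x y hx hy =>
      have h1 : x + y - ∑ i, (co O (ψ i) (x + y)) ⊗ₜ[ℤ] e i =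
          (x - ∑ i, (co O (ψ i) x) ⊗ₜ[ℤ] e i) + (y - ∑ i, (co O (ψ i) y) ⊗ₜ[ℤ] e i) := by
        simp only [map_add, TensorProduct.add_tmul, Finset.sum_add_distrib]
        abel
      rw [h1]
      exact AddSubgroup.add_mem _ hx hy
  have h0 : ∀ i, co O (ψ i) z = 0 := by
    intro i
    apply hj
    rw [← co_tm, hz, map_zero, map_zero]
  have h1 := key z
  simp only [h0, TensorProduct.zero_tmul, Finset.sum_const_zero, sub_zero] at h1
  exact h1

end Pool.Agent.Helper57.TH
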