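import Pool.Agent.Helper57.TH.DRAM
import Pool.Agent.Helper35.RD.RSP

/-!
# Project TH, packet D_FIN, abstract part
-/

set_option autoImplicit false

namespace Pool.Agent.Helper57.TH

open NumberField Module IsDedekindDomain TensorProduct
open Pool.Agent.Helper51.SigLeo Pool.Agent.Helper51.RP Pool.Agent.Helper42.RD
open Pool.Agent.Helper38.FD (Chr CutsOut LeopoldtFor)
open Pool.Agent.Helper38.FW (InDec IsOmega IsLocal IsWeight AllChr tame countChr)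
open Pool.Agent.Helper38.FY (BaseChr)
open Pool.Agent.Helper38.TH

theorem chr_pow_finrank {p : ℕ} [Fact p.Prime] {K : Type} [Field K] [NumberField K]
    {χ : Chr K (AlgebraicClosure K) ℂ_[p]} {H : IntermediateField K (AlgebraicClosure K)}
    (h : CutsOut χ H) : χ ^ finrank K H = 1 := by
  have h1 : H.fixingSubgroup = χ.ker := by
    ext g
    rw [MonoidHom.mem_ker, h g, IntermediateField.mem_fixingSubgroup_iff]
  have h2 : finrank K H = χ.ker.index := by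
    rw [← h1]
    exact IntermediateField.finrank_eq_fixingSubgroup_index (AlgebraicClosure K) H
  refine MonoidHom.ext fun g => ?_
  have h3 := χ.ker.pow_index_mem g
  rw [MonoidHom.mem_ker, map_pow] at h3
  show (χ g) ^ finrank K H = 1
  rw [h2]
  exact h3

theorem chr_cancel {p : ℕ} [Fact p.Prime] {K : Type} [Field K]
    (a b : Chr K (AlgebraicClosure K) ℂ_[p]) : a * (a⁻¹ * b) = b :=
  MonoidHom.ext fun g => mul_inv_cancel_left (a g) (b g)

theorem hat_mul {p : ℕ} [Fact p.Prime] {K : Type} [Field K]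
    {η : ℕ → Chr K (AlgebraicClosure K) ℂ_[p]} (hη : IsTower η) (n : ℕ)
    {ξ : Chr K (AlgebraicClosure K) ℂ_[p]} (hξ : ξ ∈ Hat η) : (η n)⁻¹ * ξ ∈ Hat η := by
  have hp : p.Prime := Fact.out
  obtain ⟨m, a, rfl⟩ := hξ
  have h4 : p ^ m ≤ p ^ (n + m) := Nat.pow_le_pow_right hp.pos (by omega)
  refine ⟨n + m, (p ^ (n + m) - p ^ m) + p ^ n * a, ?_⟩
  refine MonoidHom.ext fun g => ?_
  show (η n g)⁻¹ * (η m g) ^ a = (η (n + m) g) ^ ((p ^ (n + m) - p ^ m) + p ^ n * a)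
  have h1 : (η (n + m) g) ^ p ^ m = η n g := tower_pow hη n m g
  have h2 : (η (n + m) g) ^ p ^ n = η m g := by
    have := tower_pow hη m n g
    rwa [Nat.add_comm m n] at this
  have h3 : (η (n + m) g) ^ p ^ (n + m) = 1 := tower_ord hη (n + m) g
  rw [pow_add, pow_mul (η (n + m) g) (p ^ n) a, h2]
  congr 1
  rw [inv_eq_iff_mul_eq_one, ← h1, ← pow_add, Nat.add_sub_cancel' h4, h3]

/-- the finiteness of the sets which are counted (first part of `main_y`) -/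
def FinY : Prop :=
  ∀ (p : ℕ) [Fact p.Prime] (K : Type) [Field K] [NumberField K]
    (ιinf : AlgebraicClosure K →+* ℂ) (ιp : AlgebraicClosure K →+* ℂ_[p])
    (_L : IwasawaLog p ℂ_[p]) (_D : BaseChr ιinf ιp)
    (A : Set (IntermediateField K (AlgebraicClosure K) × Chr K (AlgebraicClosure K) ℂ_[p])),
    IsLocal A →
  ∀ (e : IntermediateField K (AlgebraicClosure K) × Chr K (AlgebraicClosure K) ℂ_[p] → ℕ),
    IsWeight e → ∀ X : ℕ, {x | x ∈ AllChr p K ∧ tame p K x.1 * e x ≤ X}.Finite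

theorem d_fin_of (hfinY : FinY) : Pool.Agent.Helper38.TH.D_FIN := by
  intro hW hDich hInv hRam hUnr p _ K _ _ ιinf ιp L D hom η hη A hA e he ε hε
  have hp : p.Prime := Fact.out
  have hcl : PlaceClosed (TSet ιinf ιp D.S) :=
    Pool.Agent.Helper35.RD.tset_closed ιinf ιp D.S D.isOrdinary
  have hκ : ∃ N : ℕ, 0 < N ∧ D.κ ^ N = 1 := by
    have := D.finite
    exact ⟨finrank K D.H, finrank_pos, chr_pow_finrank D.cutsOut⟩
  obtain ⟨n₁, hn₁⟩ := hRam p K η hη D.κ hκ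
  have hsub : {x | x ∈ A ∧ {ξ | ξ ∈ Hat η ∧ ¬ ∀ σ : ℂ_[p] ≃ₐ[ℚ_[p]] ℂ_[p],
      LeopoldtFor ιinf ιp L D.S ((Units.map (σ : ℂ_[p] →* ℂ_[p])).comp
        (D.κ * x.2 * ξ))}.Infinite} ⊆
      {x | x ∈ A ∧ ∀ n, n₁ ≤ n → ¬ LeopoldtFor ιinf ιp L D.S (D.κ * x.2 * η n)} := by
    rintro x ⟨hxA, hinf⟩
    refine ⟨hxA, fun n hn hgood => hinf ?_⟩
    have hφ : x.2 ^ p = 1 := by
      have h1 := hA.subset hxA
      have h2 := chr_pow_finrank h1.2
      rw [h1.1] at h2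
      exact h2
    have hfin := hDich p K ιinf ιp L D.S hcl (D.κ * x.2 * η n) η hη (hUnr p K η hη)
      (hn₁ n hn x.2 hφ) hgood
    refine Set.Finite.subset (hfin.image fun ξ => η n * ξ) ?_
    rintro ξ ⟨hξ, hbad⟩
    refine ⟨(η n)⁻¹ * ξ, ⟨hat_mul hη n hξ, fun hL => hbad fun σ => ?_⟩, ?_⟩
    · have h3 : D.κ * x.2 * η n * ((η n)⁻¹ * ξ) = D.κ * x.2 * ξ := by
        rw [mul_assoc (D.κ * x.2), chr_cancel]
      rw [h3] at hL
      exact hInv p K ιinf ιp L D.S hcl _ hL σ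
    · show η n * ((η n)⁻¹ * ξ) = ξ
      rw [chr_cancel]
  have h4 := hW p K ιinf ιp L D hom η hη A hA e he n₁ ε hε
  filter_upwards [h4] with X hX
  refine le_trans ?_ hX
  unfold countChr
  have h5 : {x | x ∈ {x | x ∈ A ∧ {ξ | ξ ∈ Hat η ∧ ¬ ∀ σ : ℂ_[p] ≃ₐ[ℚ_[p]] ℂ_[p],
      LeopoldtFor ιinf ιp L D.S ((Units.map (σ : ℂ_[p] →* ℂ_[p])).comp
        (D.κ * x.2 * ξ))}.Infinite} ∧ tame p K x.1 * e x ≤ X} ⊆
      {x | x ∈ {x | x ∈ A ∧ ∀ n, n₁ ≤ n → ¬ LeopoldtFor ιinf ιp L D.S (D.κ * x.2 * η n)} ∧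
        tame p K x.1 * e x ≤ X} := fun x hx => ⟨hsub hx.1, hx.2⟩
  have h6 : {x | x ∈ {x | x ∈ A ∧ ∀ n, n₁ ≤ n → ¬ LeopoldtFor ιinf ιp L D.S (D.κ * x.2 * η n)} ∧
        tame p K x.1 * e x ≤ X}.Finite :=
    (hfinY p K ιinf ιp L D A hA e he X).subset fun x hx => ⟨hA.subset hx.1.1, hx.2⟩
  exact_mod_cast Set.ncard_le_ncard h5 h6

end Pool.Agent.Helper57.TH
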