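import Pool.Agent.Helper38.TH.GoalsD

/-!
# Project TH, packet D_RAM
-/

set_option autoImplicit false

namespace Pool.Agent.Helper57.TH

open NumberField Module IsDedekindDomain TensorProduct
open Pool.Agent.Helper51.SigLeo Pool.Agent.Helper51.RP Pool.Agent.Helper42.RD
open Pool.Agent.Helper38.FD (Chr CutsOut LeopoldtFor)
open Pool.Agent.Helper38.FW (InDec IsOmega IsLocal IsWeight AllChr tame countChr)
open Pool.Agent.Helper38.TH

/-- two embeddings of `Ω` with the same restriction to `K` are conjugate -/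
theorem exists_gal {K k : Type} [Field K] [Field k] (τ τ' : AlgebraicClosure K →+* k)
    (h : τ.comp (algebraMap K (AlgebraicClosure K)) = τ'.comp (algebraMap K (AlgebraicClosure K))) :
    ∃ σ : AlgebraicClosure K ≃ₐ[K] AlgebraicClosure K, ∀ x, τ' x = τ (σ x) := by
  letI : Algebra (AlgebraicClosure K) k := τ.toAlgebra
  letI : Algebra K k := (τ.comp (algebraMap K (AlgebraicClosure K))).toAlgebra
  haveI : IsScalarTower K (AlgebraicClosure K) k := IsScalarTower.of_algebraMap_eq fun x => rfl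
  let f : AlgebraicClosure K →ₐ[K] k :=
    { τ' with commutes' := fun x => (RingHom.congr_fun h x).symm }
  refine ⟨Normal.algHomEquivAut K k (AlgebraicClosure K) f, fun x => ?_⟩
  have h1 := (Normal.algHomEquivAut K k (AlgebraicClosure K)).symm_apply_apply f
  have h2 := AlgHom.congr_fun h1 x
  exact h2.symm

theorem tower_pow {p : ℕ} [Fact p.Prime] {K : Type} [Field K]
    {η : ℕ → Chr K (AlgebraicClosure K) ℂ_[p]} (hη : IsTower η) (m d : ℕ)
    (g : AlgebraicClosure K ≃ₐ[K] AlgebraicClosure K) : (η (m + d) g) ^ p ^ d = η m g := by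
  induction d with
  | zero => simp
  | succ d ih =>
    rw [← ih, pow_succ', pow_mul]
    congr 1
    have h1 := hη.pow (m + d)
    have h2 := DFunLike.congr_fun h1 g
    exact h2

theorem tower_le {p : ℕ} [Fact p.Prime] {K : Type} [Field K]
    {η : ℕ → Chr K (AlgebraicClosure K) ℂ_[p]} (hη : IsTower η) {m n : ℕ} (h : m ≤ n)
    (g : AlgebraicClosure K ≃ₐ[K] AlgebraicClosure K) (h1 : η n g = 1) : η m g = 1 := by
  obtain ⟨d, rfl⟩ := Nat.exists_eq_add_of_le h
  rw [← tower_pow hη m d g, h1, one_pow]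

theorem tower_ord {p : ℕ} [Fact p.Prime] {K : Type} [Field K]
    {η : ℕ → Chr K (AlgebraicClosure K) ℂ_[p]} (hη : IsTower η) (n : ℕ)
    (g : AlgebraicClosure K ≃ₐ[K] AlgebraicClosure K) : (η n g) ^ p ^ n = 1 := by
  have h := tower_pow hη 0 n g
  rw [Nat.zero_add] at h
  rw [h, hη.zero]
  rfl

/-- a bound for the first level at which a decomposition group does not act trivially -/
theorem exists_level {p : ℕ} [Fact p.Prime] {K : Type} [Field K] [NumberField K]
    {η : ℕ → Chr K (AlgebraicClosure K) ℂ_[p]} (hη : IsTower η) :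
    ∃ n₂ : ℕ, ∀ τ : AlgebraicClosure K →+* ℂ_[p], (∃ n g, InDec τ g ∧ η n g ≠ 1) →
      ∃ g, InDec τ g ∧ η n₂ g ≠ 1 := by
  classical
  have hex : ∀ σ : K →+* ℂ_[p], ∃ n₀ : ℕ, ∀ τ : AlgebraicClosure K →+* ℂ_[p],
      τ.comp (algebraMap K (AlgebraicClosure K)) = σ → (∃ n g, InDec τ g ∧ η n g ≠ 1) →
      ∃ g, InDec τ g ∧ η n₀ g ≠ 1 := by
    intro σ
    by_cases h : ∃ τ : AlgebraicClosure K →+* ℂ_[p],
        τ.comp (algebraMap K (AlgebraicClosure K)) = σ ∧ (∃ n g, InDec τ g ∧ η n g ≠ 1)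
    · obtain ⟨τ, hτ, n, g, hg, hn⟩ := h
      refine ⟨n, fun τ' hτ' _ => ?_⟩
      obtain ⟨s, hs⟩ := exists_gal τ τ' (by rw [hτ, hτ'])
      refine ⟨s⁻¹ * g * s, fun x => ?_, ?_⟩
      · rw [hs, hs]
        have h1 : s ((s⁻¹ * g * s) x) = g (s x) := by
          show s (s⁻¹ (g (s x))) = g (s x)
          exact s.apply_symm_apply _
        rw [h1]
        exact hg _
      · rw [map_mul, map_mul, map_inv, mul_assoc, mul_comm (η n g), ← mul_assoc, inv_mul_cancel,
          one_mul]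
        exact hn
    · refine ⟨0, fun τ hτ hτ2 => absurd ⟨τ, hτ, hτ2⟩ h⟩
  choose N hN using hex
  haveI : Finite (K →+* ℂ_[p]) := by
    haveI : Fintype (K →+* ℂ_[p]) := inferInstance
    infer_instance
  obtain ⟨M, hM⟩ : ∃ M, ∀ σ, N σ ≤ M := by
    obtain ⟨M, hM⟩ := (Set.finite_range N).bddAbove
    exact ⟨M, fun σ => hM ⟨σ, rfl⟩⟩
  refine ⟨M, fun τ hτ => ?_⟩
  obtain ⟨g, hg, h1⟩ := hN _ τ rfl hτ
  exact ⟨g, hg, fun h2 => h1 (tower_le hη (hM _) g h2)⟩

theorem d_ram : Pool.Agent.Helper38.TH.D_RAM := by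
  rintro p _ K _ _ η hη κ ⟨N, hN, hκ⟩
  have hp : p.Prime := Fact.out
  obtain ⟨n₂, hn₂⟩ := exists_level hη
  obtain ⟨c, N', hN', hc⟩ := Nat.exists_eq_pow_mul_and_not_dvd (Nat.mul_pos hN hp.pos).ne' p hp.ne_one
  refine ⟨n₂ + c, fun n hn φ hφ τ hτ => ?_⟩
  obtain ⟨g, hg, h1⟩ := hn₂ τ hτ
  refine ⟨g, hg, fun h2 => h1 ?_⟩
  have h3 : (η n g) ^ (N * p) = 1 := by
    have e1 : (κ g) ^ (N * p) = 1 := by
      have := DFunLike.congr_fun hκ g
      rw [pow_mul]
      have h4 : κ g ^ N = 1 := this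
      rw [h4, one_pow]
    have e2 : (φ g) ^ (N * p) = 1 := by
      have := DFunLike.congr_fun hφ g
      have h4 : φ g ^ p = 1 := this
      rw [mul_comm, pow_mul, h4, one_pow]
    have e3 : κ g * φ g * η n g = 1 := h2
    have e4 : (κ g * φ g * η n g) ^ (N * p) = 1 := by rw [e3, one_pow]
    rw [mul_pow, mul_pow, e1, e2, one_mul, one_mul] at e4
    exact e4
  have h4 : (η n g) ^ p ^ n = 1 := tower_ord hη n g
  have h5 : (η n g) ^ p ^ c = 1 := by
    rw [← orderOf_dvd_iff_pow_eq_one] at h3 h4 ⊢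
    obtain ⟨k, hk, hk2⟩ := (Nat.dvd_prime_pow hp).1 h4
    rw [hc, hk2] at h3
    rw [hk2]
    have h6 : Nat.Coprime (p ^ k) N' := Nat.Coprime.pow_left k ((Nat.Prime.coprime_iff_not_dvd hp).2 hN')
    exact h6.dvd_of_dvd_mul_right h3
  have h6 : η (n - c) g = 1 := by
    have h7 := tower_pow hη (n - c) c g
    rw [Nat.sub_add_cancel (by omega : c ≤ n), h5] at h7
    exact h7.symm
  exact tower_le hη (by omega : n₂ ≤ n - c) g h6

end Pool.Agent.Helper57.TH
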