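import Pool.Agent.Helper17.TH.GoalsII

/-!
# Project TH, packet S_CLS: counting classes modulo `p`
-/

set_option autoImplicit false

namespace Pool.Agent.Helper57.TH

open Module
open Pool.Agent.Helper17.TH

theorem s_cls : Pool.Agent.Helper17.TH.S_CLS := by
  classical
  intro p _ A _ _ φ ζ C hC ι _ s hs1 hs2
  have hp : 0 < p := (Fact.out (p := p.Prime)).pos
  set N : AddSubgroup A := (nsmulAddMonoidHom p : A →+ A).range with hN
  have hmemN : ∀ x : A, x ∈ N ↔ ∃ w, x = p • w := by
    intro x
    rw [hN, AddMonoidHom.mem_range]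
    constructor
    · rintro ⟨w, hw⟩
      exact ⟨w, hw.symm⟩
    · rintro ⟨w, hw⟩
      exact ⟨w, hw.symm⟩
  set π : A →+ A ⧸ N := QuotientAddGroup.mk' N with hπ
  have hπs : Function.Surjective π := QuotientAddGroup.mk'_surjective N
  have hπ0 : ∀ x : A, π x = 0 ↔ ∃ w, x = p • w := by
    intro x
    rw [← hmemN, hπ]
    exact QuotientAddGroup.eq_zero_iff x
  have hpq : ∀ q : A ⧸ N, p • q = 0 := by
    intro q
    obtain ⟨a, rfl⟩ := hπs q
    rw [← map_nsmul, hπ0]
    exact ⟨a, rfl⟩
  have hfin : Finite (A ⧸ N) := by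
    have : Module.Finite ℤ (A ⧸ N) := Module.Finite.of_surjective π.toIntLinearMap hπs
    apply Module.finite_of_fg_torsion
    intro q
    refine ⟨⟨(p : ℤ), mem_nonZeroDivisors_of_ne_zero (by exact_mod_cast hp.ne')⟩, ?_⟩
    show (p : ℤ) • q = 0
    rw [natCast_zsmul]
    exact hpq q
  have : Fintype (A ⧸ N) := Fintype.ofFinite _
  have hker : ∀ x ∈ N, (π.comp φ) x = 0 := by
    intro x hx
    obtain ⟨w, rfl⟩ := (hmemN x).1 hx
    show π (φ (p • w)) = 0
    rw [map_nsmul, map_nsmul]
    exact hpq _
  set φq : A ⧸ N →+ A ⧸ N := QuotientAddGroup.lift N (π.comp φ) hker with hφq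
  have hφπ : ∀ a, φq (π a) = π (φ a) := fun a => rfl
  -- the kernel has at most C elements
  have hK : (Finset.univ.filter fun q : A ⧸ N => φq q = 0).card ≤ C := by
    choose ρ hρ using hπs
    have hinj : Function.Injective ρ := fun x y h => by rw [← hρ x, ← hρ y, h]
    rw [← Finset.card_image_of_injective _ hinj]
    apply hC
    · intro u hu
      obtain ⟨q, hq, rfl⟩ := Finset.mem_image.1 hu
      have h1 := (Finset.mem_filter.1 hq).2
      rw [← hρ q, hφπ, hπ0] at h1
      exact h1
    · intro u hu v hv huv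
      obtain ⟨q, hq, rfl⟩ := Finset.mem_image.1 hu
      obtain ⟨q', hq', rfl⟩ := Finset.mem_image.1 hv
      rw [← hπ0, map_sub, hρ, hρ, sub_eq_zero] at huv
      rw [huv]
  -- the larger set
  set F := Finset.univ.filter fun q : A ⧸ N => ∃ n : ℕ, φq q = n • π ζ with hF
  have hF1 : F.card ≤ C * p := by
    have h1 : F.card ≤ C * (F.image φq).card := by
      apply Finset.card_le_mul_card_image
      intro a ha
      obtain ⟨q0, hq0, rfl⟩ := Finset.mem_image.1 ha
      refine le_trans ?_ hK
      apply Finset.card_le_card_of_injOn (fun q => q - q0)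
      · intro q hq
        have h2 := (Finset.mem_filter.1 hq).2
        simp [h2]
      · intro x _ y _ hxy
        exact sub_left_injective hxy
    have h2 : (F.image φq).card ≤ p := by
      have h3 : F.image φq ⊆ (Finset.range p).image fun n : ℕ => n • π ζ := by
        intro a ha
        obtain ⟨q, hq, rfl⟩ := Finset.mem_image.1 ha
        obtain ⟨n, hn⟩ := (Finset.mem_filter.1 hq).2
        rw [hn]
        refine Finset.mem_image.2 ⟨n % p, Finset.mem_range.2 (Nat.mod_lt _ hp), ?_⟩
        conv_rhs => rw [← Nat.mod_add_div n p, add_smul, mul_smul, hpq, add_zero]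
      calc _ ≤ ((Finset.range p).image fun n : ℕ => n • π ζ).card := Finset.card_le_card h3
        _ ≤ (Finset.range p).card := Finset.card_image_le
        _ = p := Finset.card_range p
    exact h1.trans (Nat.mul_le_mul_left C h2)
  have hmap : s.card ≤ (Fintype.piFinset fun _ : ι => F).card := by
    apply Finset.card_le_card_of_injOn (fun e i => π (e i))
    · intro e he
      rw [Finset.mem_coe, Fintype.mem_piFinset]
      intro i
      obtain ⟨n, a, h⟩ := hs1 e he i
      refine Finset.mem_filter.2 ⟨Finset.mem_univ _, n, ?_⟩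
      rw [hφπ, h, map_add, map_nsmul, map_nsmul, hpq, add_zero]
    · intro e he e' he' h
      apply hs2 e he e' he'
      intro i
      have h1 : π (e i) = π (e' i) := congrFun h i
      rw [← hπ0, map_sub, h1, sub_self]
  rw [Fintype.card_piFinset, Finset.prod_const, Finset.card_univ] at hmap
  refine hmap.trans (Nat.pow_le_pow_left ?_ _)
  rw [mul_comm]
  exact hF1

end Pool.Agent.Helper57.TH
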