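import Pool.Agent.Helper57.TH.DFINA
import Pool.Agent.Helper38.FY.Final

/-!
# Project TH, packet D_FIN
-/

set_option autoImplicit false

namespace Pool.Agent.Helper57.TH

open NumberField Module Pool.Agent.Helper51.SigLeo
open Pool.Agent.Helper38.FD (Chr)
open Pool.Agent.Helper38.FW (AllChr IsLocal IsWeight tame countChr)

theorem fin_y : FinY := fun p _ K _ _ ιinf ιp L D A hA e he =>
  (Pool.Agent.Helper38.FY.main_y p K ιinf ιp L Unit (fun _ => D) A hA e he).1

theorem d_fin : Pool.Agent.Helper38.TH.D_FIN := d_fin_of fin_y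

end Pool.Agent.Helper57.TH
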