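import Pool.Agent.Helper42.TH.Goals1

/-!
# Project TH, packet T_CLW: a weighted sum is at most a weighted sum over layers
-/

set_option autoImplicit false

namespace Pool.Agent.Helper57.TH

open Pool.Agent.Helper42.TH

theorem t_clw : Pool.Agent.Helper42.TH.T_CLW := by
  classical
  intro β n A G X hX hfin hGA
  set κ : β → ℕ := fun b => ⌈(n b : ℝ) / X⌉₊ - 1 with hκ
  have hy : ∀ b, 0 ≤ (n b : ℝ) / X := fun b => by positivity
  have h1 : ∀ b, (κ b : ℝ) ≤ n b / X := by
    intro b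
    simp only [hκ]
    rcases Nat.eq_zero_or_pos ⌈(n b : ℝ) / X⌉₊ with h | h
    · rw [h]
      simpa using hy b
    · have h2 : ⌈(n b : ℝ) / X⌉₊ - 1 < ⌈(n b : ℝ) / X⌉₊ := by omega
      exact (Nat.lt_ceil.1 h2).le
  have h2 : ∀ b, (n b : ℝ) ≤ ((κ b : ℝ) + 1) * X := by
    intro b
    rw [← div_le_iff₀ hX]
    have h3 := Nat.le_ceil ((n b : ℝ) / X)
    have h4 : ⌈(n b : ℝ) / X⌉₊ ≤ κ b + 1 := by
      simp only [hκ]
      omega
    have h5 : ((⌈(n b : ℝ) / X⌉₊ : ℕ) : ℝ) ≤ (κ b : ℝ) + 1 := by exact_mod_cast h4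
    exact h3.trans h5
  refine ⟨G.sup κ + 1, fun M hM => ?_⟩
  have h3 : ∀ b ∈ G, κ b < M := fun b hb => by
    have := Finset.le_sup (f := κ) hb
    omega
  calc ∑ b ∈ G, Real.exp (-(n b / X)) ≤ ∑ b ∈ G, Real.exp (-(κ b : ℝ)) := by
        refine Finset.sum_le_sum fun b _ => Real.exp_le_exp.2 ?_
        have := h1 b
        linarith
    _ ≤ ∑ b ∈ G, ∑ k ∈ Finset.range M, (if (n b : ℝ) ≤ ((k : ℝ) + 1) * X then Real.exp (-(k : ℝ)) else 0) := by
        refine Finset.sum_le_sum fun b hb => ?_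
        have h5 := Finset.single_le_sum (s := Finset.range M)
          (f := fun k : ℕ => if (n b : ℝ) ≤ ((k : ℝ) + 1) * X then Real.exp (-(k : ℝ)) else 0)
          (fun k _ => by
            show (0 : ℝ) ≤ if (n b : ℝ) ≤ ((k : ℝ) + 1) * X then Real.exp (-(k : ℝ)) else 0
            split_ifs
            · exact (Real.exp_pos _).le
            · exact le_rfl) (Finset.mem_range.2 (h3 b hb))
        rw [if_pos (h2 b)] at h5
        exact h5
    _ = ∑ k ∈ Finset.range M, ∑ b ∈ G, (if (n b : ℝ) ≤ ((k : ℝ) + 1) * X then Real.exp (-(k : ℝ)) else 0) :=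
        Finset.sum_comm
    _ ≤ _ := by
        refine Finset.sum_le_sum fun k _ => ?_
        rw [← Finset.sum_filter, Finset.sum_const, nsmul_eq_mul, mul_comm]
        gcongr
        rw [← Set.ncard_coe_finset]
        apply Set.ncard_le_ncard _ (hfin _)
        intro b hb
        have hb' := Finset.mem_filter.1 (Finset.mem_coe.1 hb)
        exact ⟨hGA b hb'.1, hb'.2⟩

end Pool.Agent.Helper57.TH
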